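import Mathlib

set_option autoImplicit false

namespace Pool.Agent.Results.MP_18aa7e_al.Free
open Pointwise

/-- the relation `x y z = z y x` -/
def tri (x y z : Fin 6) : FreeGroup (Fin 6) :=
  .of x * .of y * .of z * (.of z * .of y * .of x)⁻¹

/-- the relation `x y = y x` -/
def com (x y : Fin 6) : FreeGroup (Fin 6) := .of x * .of y * (.of y * .of x)⁻¹

/-- the relators, with `a, b, c, d, e, f` numbered `0, …, 5` -/
def rels : Set (FreeGroup (Fin 6)) :=
  Set.range (fun x => FreeGroup.of x ^ 2) ∪ {com 0 5, com 1 4, com 2 3,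
    tri 0 1 3, tri 1 0 3, tri 0 3 1, tri 0 2 4, tri 2 0 4, tri 0 4 2,
    tri 1 2 5, tri 2 1 5, tri 1 5 2, tri 3 4 5, tri 4 3 5, tri 3 5 4}

abbrev J := {t : ℝ // Irrational t}

lemma ne (t : J) (m : ℤ) : t.1 ≠ m := t.2.ne_int m

lemma ne1 (t : J) : t.1 + 1 ≠ 0 := fun h => ne t (-1) (by push_cast; linarith)

def A : Equiv.Perm J := Function.Involutive.toPerm (fun t => ⟨-t.1, t.2.neg⟩) fun t => by simp

def B : Equiv.Perm J := Function.Involutive.toPerm
  (fun t => ⟨-t.1 - 2, by exact_mod_cast t.2.neg.sub_natCast 2⟩) fun t => by simp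

noncomputable def C : Equiv.Perm J := Function.Involutive.toPerm
  (fun t => ⟨(t.1 + 1)⁻¹ - 1, by exact_mod_cast (t.2.add_natCast 1).inv.sub_natCast 1⟩) fun t => by simp

lemma vA (t : J) : (A t).1 = -t.1 := rfl
lemma vB (t : J) : (B t).1 = -t.1 - 2 := rfl
lemma vC (t : J) : (C t).1 = (t.1 + 1)⁻¹ - 1 := rfl

lemma AA : A * A = 1 := by ext t; simp [vA]
lemma BB : B * B = 1 := by ext t; simp [vB]
lemma CC : C * C = 1 := by ext t; simp [vC]
lemma BC : C * B = B * C := by
  ext t
  simp only [Equiv.Perm.mul_apply, vB, vC]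
  rw [show -t.1 - 2 + 1 = -(t.1 + 1) by ring, inv_neg]; ring

noncomputable def g : Fin 6 → Equiv.Perm J := ![A, B, C, B, C, 1]

lemma hg : ∀ r ∈ rels, FreeGroup.lift g r = 1 := by
  have b2 : ∀ x, B * (B * x) = x := fun x => by rw [← mul_assoc, BB, one_mul]
  have c2 : ∀ x, C * (C * x) = x := fun x => by rw [← mul_assoc, CC, one_mul]
  rintro r (⟨x, rfl⟩ | h)
  · fin_cases x <;> simp [g, pow_two, AA, BB, CC]
  · simp only [Set.mem_insert_iff, Set.mem_singleton_iff] at h
    rcases h with rfl | rfl | rfl | rfl | rfl | rfl | rfl | rfl | rfl | rfl | rfl | rfl | rfl | rfl | rfl <;>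
      simp only [com, tri, map_mul, map_inv, FreeGroup.lift_apply_of, mul_inv_eq_one] <;>
      simp [g, mul_assoc, BB, CC, BC, b2, c2]

lemma free : Function.Injective (FreeGroup.lift ![A * B, A * C * (A * C)]) := by
  have iA : A⁻¹ = A := inv_eq_of_mul_eq_one_right AA
  have iB : B⁻¹ = B := inv_eq_of_mul_eq_one_right BB
  have iC : C⁻¹ = C := inv_eq_of_mul_eq_one_right CC
  have s2 : Irrational √2 := irrational_sqrt_two
  have s3 : 1 < √2 := Real.one_lt_sqrt_two
  have y1 : ∀ t : J, (A (C (A (C t)))).1 * (2 * t.1 + 1) = t.1 := fun t => by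
    have h1 := ne1 t
    have h2 := ne1 (A (C t))
    simp only [vA, vC] at h2 ⊢
    have h3 : 2 * t.1 + 1 ≠ 0 := fun h => h2 (by field_simp; linarith)
    rw [show -((t.1 + 1)⁻¹ - 1) + 1 = (2 * t.1 + 1) / (t.1 + 1) by field_simp; ring]
    field_simp; ring
  refine FreeGroup.injective_lift_of_ping_pong _
    (![{t | 1 < t.1}, {t | 0 < t.1 ∧ t.1 < 1}] : Fin 2 → Set J)
    ![{t | t.1 < -1}, {t | -1 < t.1 ∧ t.1 < 0}] ?_ ?_ ?_ ?_ ?_ ?_
  · intro i
    fin_cases i
    · exact ⟨⟨_, s2⟩, s3⟩
    · exact ⟨⟨_, s2.inv⟩, by simp, inv_lt_one_of_one_lt₀ s3⟩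
  · intro i j h
    fin_cases i <;> fin_cases j <;> simp_all [Function.onFun, Set.disjoint_left] <;> intros <;> linarith
  · intro i j h
    fin_cases i <;> fin_cases j <;> simp_all [Function.onFun, Set.disjoint_left] <;> intros <;> linarith
  · intro i j
    fin_cases i <;> fin_cases j <;> simp [Set.disjoint_left] <;> intros <;> linarith
  · intro i
    fin_cases i <;> rintro _ ⟨t, ht, rfl⟩
    · have := ne1 t
      change 1 < (A (B t)).1
      have ht : ¬t.1 < -1 := ht
      rw [vA, vB]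
      rcases lt_trichotomy (t.1 + 1) 0 with h | h | h
      · linarith
      · exact absurd h this
      · linarith
    · change 0 < (A (C (A (C t)))).1 ∧ (A (C (A (C t)))).1 < 1
      have ht : ¬(-1 < t.1 ∧ t.1 < 0) := ht
      have h := y1 t
      have h0 := ne t 0
      have h1 := ne1 t
      rcases lt_trichotomy t.1 0 with p | p | p
      · have : t.1 < -1 := lt_of_le_of_ne (not_lt.1 fun q => ht ⟨q, p⟩) fun q => h1 (by linarith)
        constructor <;> nlinarith
      · exact absurd (by simpa using p) h0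
      · constructor <;> nlinarith
  · intro i
    fin_cases i <;> rintro _ ⟨t, ht, rfl⟩
    · change ((A * B)⁻¹ t).1 < -1
      have ht : ¬1 < t.1 := ht
      rw [mul_inv_rev, iA, iB, Equiv.Perm.mul_apply, vB, vA]
      have := lt_of_le_of_ne (not_lt.1 ht) (by simpa using ne t 1)
      linarith
    · change -1 < ((A * C * (A * C))⁻¹ t).1 ∧ ((A * C * (A * C))⁻¹ t).1 < 0
      have ht : ¬(0 < t.1 ∧ t.1 < 1) := ht
      obtain ⟨s, rfl⟩ := (A * C * (A * C)).surjective t
      rw [Equiv.Perm.coe_inv, Equiv.symm_apply_apply]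
      have h := y1 s
      have h0 := ne (A (C (A (C s)))) 0
      have h1 := ne (A (C (A (C s)))) 1
      change ¬(0 < (A (C (A (C s)))).1 ∧ (A (C (A (C s)))).1 < 1) at ht
      generalize (A (C (A (C s)))).1 = u at *
      rcases lt_trichotomy u 0 with p | p | p
      · constructor <;> nlinarith
      · exact absurd (by simpa using p) h0
      · have : 1 < u := lt_of_le_of_ne (not_lt.1 fun q => ht ⟨p, q⟩) fun q => h1 (by simpa using q.symm)
        constructor <;> nlinarith

theorem result : ∃ φ : FreeGroup (Fin 2) →* PresentedGroup rels, Function.Injective φ := by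
  let o : Fin 6 → PresentedGroup rels := PresentedGroup.of
  refine ⟨FreeGroup.lift ![o 0 * o 1, o 0 * o 2 * (o 0 * o 2)], ?_⟩
  refine Function.Injective.of_comp (f := PresentedGroup.toGroup hg) ?_
  rw [← MonoidHom.coe_comp]
  have : (PresentedGroup.toGroup hg).comp (FreeGroup.lift ![o 0 * o 1, o 0 * o 2 * (o 0 * o 2)]) =
      FreeGroup.lift ![A * B, A * C * (A * C)] := by
    ext1 i
    fin_cases i <;> simp [o, g]
  rw [this]
  exact free

end Pool.Agent.Results.MP_18aa7e_al.Free
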